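import Pool.Agent.Helper58.PB.StS

set_option autoImplicit false

namespace Pool.Agent.Helper31.PB

open Finset ArithmeticFunction
open Pool.Agent.Helper58.PB
open Pool.Agent.Helper48.BK (ex th Sx Apx)

private theorem norm_ex_VGN (t : ℝ) : ‖ex t‖ = 1 := by
  unfold ex
  have : (2 * Real.pi * t * Complex.I : ℂ) = ((2 * Real.pi * t : ℝ) : ℂ) * Complex.I := by
    push_cast; ring
  rw [this, Complex.norm_exp_ofReal_mul_I]

private theorem diff_VGN (hth : ∀ n, 0 ≤ th n ∧ th n ≤ Λ n ∧ th n ≤ Real.log n) (y : ℕ) (α : ℝ) :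
    ‖Sx th y α‖ ≤ ‖Sx (fun n => Λ n) y α‖ + ∑ n ∈ Ioc 0 y, (Λ n - th n) := by
  have h1 : Sx th y α = Sx (fun n => Λ n) y α -
      ∑ n ∈ Ioc 0 y, ((Λ n - th n : ℝ) : ℂ) * ex (n * α) := by
    unfold Sx
    rw [← Finset.sum_sub_distrib]
    refine Finset.sum_congr rfl fun n _ => ?_
    push_cast; ring
  rw [h1]
  refine (norm_sub_le _ _).trans ?_
  gcongr
  refine (norm_sum_le _ _).trans (Finset.sum_le_sum fun n _ => ?_)
  rw [norm_mul, norm_ex_VGN, mul_one, Complex.norm_real,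
    Real.norm_of_nonneg (by linarith [(hth n).2.1])]

theorem hVgn : Pool.Agent.Helper48.BK.StVau → Pool.Agent.Helper48.BK.StTh → StVgn := by
  intro ha hf
  obtain ⟨C₁, hC₁, hVau⟩ := ha
  obtain ⟨hth, C₂, hC₂, hTh⟩ := hf
  refine ⟨5 * C₁ + C₂ + 1, 3, by linarith, by norm_num, fun X y T T' α hX hy hT hTT hT' hmin => ?_⟩
  have hX3 : 3 ≤ X := by exact_mod_cast hX
  have hx0 : (0 : ℝ) < X := by linarith
  have hx1 : (1 : ℝ) ≤ X := by linarith
  have hT0 : 0 < T := by linarith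
  have hT'0 : 0 < T' := by linarith
  have hL1 : 1 ≤ Real.log X := by
    rw [Real.le_log_iff_exp_le hx0]
    have := Real.exp_one_lt_d9
    linarith
  have hL0 : 0 ≤ Real.log X := by linarith
  have hT10' : T' ^ 10 ≤ X := by
    calc T' ^ 10 ≤ ((X : ℝ) ^ (1 / 10 : ℝ)) ^ (10 : ℕ) := by gcongr
      _ = (X : ℝ) := by
        rw [← Real.rpow_natCast, ← Real.rpow_mul hx0.le]
        norm_num
  have hT10 : T ^ 10 ≤ X := (by gcongr : T ^ 10 ≤ T' ^ 10).trans hT10'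
  have hT'1 : 1 ≤ T' := by linarith
  have hT'X : T' ≤ X := by
    have : T' ≤ T' ^ 10 := le_self_pow₀ hT'1 (by norm_num)
    linarith
  have hTX : T ≤ X := by linarith
  set s : ℝ := √T with hs
  have hs0 : 0 < s := Real.sqrt_pos.2 hT0
  have hs1 : 1 ≤ s := Real.one_le_sqrt.2 hT
  have hss : s * s = T := Real.mul_self_sqrt hT0.le
  have hrp : T ^ (-(1 / 2) : ℝ) = 1 / s := by
    rw [Real.rpow_neg hT0.le, hs, Real.sqrt_eq_rpow, one_div (T ^ (1 / 2 : ℝ))]
  rw [hrp]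
  -- Dirichlet approximation
  set Q : ℕ := ⌊(X : ℝ) / T'⌋₊ with hQ
  have hQ1 : 0 < Q := Nat.floor_pos.2 ((one_le_div hT'0).2 hT'X)
  have hQle : (Q : ℝ) ≤ (X : ℝ) / T' := Nat.floor_le (by positivity)
  have hQlt : (X : ℝ) / T' < Q + 1 := Nat.lt_floor_add_one _
  obtain ⟨r, hr1, hr2⟩ := Real.exists_rat_abs_sub_le_and_den_le α hQ1
  set q : ℕ := r.den with hq
  set h : ℤ := r.num with hh
  have hq1 : 1 ≤ q := r.den_pos
  have hq0 : (0 : ℝ) < q := by exact_mod_cast hq1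
  have hrq : (r : ℝ) = (h : ℝ) / q := by
    rw [hh, hq]
    exact (Rat.cast_def r)
  rw [hrq] at hr1
  have hqQ : (q : ℝ) ≤ (X : ℝ) / T' := by
    have : (q : ℝ) ≤ Q := by exact_mod_cast hr2
    linarith
  have hqx : q ≤ X := by
    have h1 : (X : ℝ) / T' ≤ X := div_le_self hx0.le hT'1
    have : (q : ℝ) ≤ X := by linarith
    exact_mod_cast this
  have hcop : IsCoprime h (q : ℤ) := by
    rw [Int.isCoprime_iff_nat_coprime]
    exact r.reduced
  have hApx : Apx α h q := by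
    refine ⟨hq1, hcop, hr1.trans ?_⟩
    rw [div_le_div_iff₀ (by positivity) (by positivity), one_mul, one_mul, pow_two]
    apply mul_le_mul_of_nonneg_right _ hq0.le
    have : (q : ℝ) ≤ Q := by exact_mod_cast hr2
    linarith
  have hqT : T < q := by
    by_contra hcon
    push Not at hcon
    have h1 := hmin q h hq1 hcon
    have h2 : 1 / (((Q : ℝ) + 1) * q) ≤ T' / (q * X) := by
      rw [div_le_div_iff₀ (by positivity) (by positivity)]
      rw [div_lt_iff₀ hT'0] at hQlt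
      nlinarith
    linarith
  -- the four terms
  set U : ℕ := ⌊T⌋₊ with hU
  have hU1 : 1 ≤ U := Nat.le_floor (by simpa using hT)
  have hU1r : (1 : ℝ) ≤ U := by exact_mod_cast hU1
  have hUle : (U : ℝ) ≤ T := Nat.floor_le hT0.le
  have hUge : T ≤ 4 * U := by
    have h1 := Nat.lt_floor_add_one T
    linarith
  have hT5 : T ^ 5 ≤ X := (pow_le_pow_right₀ hT (by norm_num) : T ^ 5 ≤ T ^ 10).trans hT10
  have hU2 : (U : ℝ) ^ 2 ≤ X / s := by
    rw [le_div_iff₀ hs0]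
    have hsT : s ≤ T := by nlinarith
    calc (U : ℝ) ^ 2 * s ≤ T ^ 2 * T := by gcongr
      _ = T ^ 3 := by ring
      _ ≤ T ^ 5 := pow_le_pow_right₀ hT (by norm_num)
      _ ≤ X := hT5
  have hUX : U ^ 2 ≤ X := by
    have h1 : X / s ≤ X := div_le_self hx0.le hs1
    have : ((U ^ 2 : ℕ) : ℝ) ≤ X := by push_cast; linarith
    exact_mod_cast this
  have hV := hVau X y U q h α hX3 hy hU1 hUX hqx hApx
  have ht1 : (X : ℝ) / √(q : ℝ) ≤ X / s :=
    div_le_div_of_nonneg_left hx0.le hs0 (Real.sqrt_le_sqrt hqT.le)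
  have hsU0 : 0 < √(U : ℝ) := Real.sqrt_pos.2 (by linarith)
  have hsU : s ≤ 2 * √(U : ℝ) := by
    have h1 : √T ≤ √(4 * U) := Real.sqrt_le_sqrt hUge
    rwa [Real.sqrt_mul (by norm_num), show √(4 : ℝ) = 2 by
      rw [show (4 : ℝ) = 2 ^ 2 by norm_num]; exact Real.sqrt_sq (by norm_num)] at h1
  have ht2 : (X : ℝ) / √(U : ℝ) ≤ 2 * (X / s) := by
    rw [← mul_div_assoc, div_le_div_iff₀ hsU0 hs0]
    nlinarith
  have ht3 : √((X : ℝ) * q) ≤ X / s := by
    rw [Real.sqrt_le_left (by positivity), div_pow, pow_two s, hss, pow_two, mul_div_assoc]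
    apply mul_le_mul_of_nonneg_left _ hx0.le
    refine hqQ.trans (div_le_div_of_nonneg_left hx0.le hT0 hTT)
  have hsum : (X : ℝ) / √(q : ℝ) + X / √(U : ℝ) + √((X : ℝ) * q) + (U : ℝ) ^ 2 ≤ 5 * (X / s) := by
    linarith
  have hL6 : 0 ≤ Real.log X ^ 6 := by positivity
  have hΛ : ‖Sx (fun n => Λ n) y α‖ ≤ 5 * C₁ * (X / s) * Real.log X ^ 6 := by
    refine hV.trans ?_
    apply mul_le_mul_of_nonneg_right _ hL6
    nlinarith
  have hdiff : ∑ n ∈ Ioc 0 y, (Λ n - th n) ≤ C₂ * (X / s) * Real.log X ^ 6 := by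
    have h1 : ∑ n ∈ Ioc 0 y, (Λ n - th n) ≤ ∑ n ∈ Ioc 0 X, (Λ n - th n) := by
      apply Finset.sum_le_sum_of_subset_of_nonneg
      · exact Finset.Ioc_subset_Ioc_right hy
      · intro n _ _
        linarith [(hth n).2.1]
    refine (h1.trans (hTh X hX3)).trans ?_
    have h2 : √(X : ℝ) ≤ X / s := by
      rw [le_div_iff₀ hs0, hs]
      calc √(X : ℝ) * √T ≤ √(X : ℝ) * √(X : ℝ) := by
            apply mul_le_mul_of_nonneg_left (Real.sqrt_le_sqrt hTX) (Real.sqrt_nonneg _)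
        _ = X := Real.mul_self_sqrt hx0.le
    have h3 : Real.log X ^ 2 ≤ Real.log X ^ 6 := pow_le_pow_right₀ hL1 (by norm_num)
    gcongr
  have hfin := diff_VGN hth y α
  have hXs : 0 ≤ X / s := by positivity
  calc ‖Sx th y α‖ ≤ 5 * C₁ * (X / s) * Real.log X ^ 6 + C₂ * (X / s) * Real.log X ^ 6 := by
        linarith
    _ ≤ (5 * C₁ + C₂ + 1) * X * (1 / s) * Real.log X ^ 6 := by
        have : 0 ≤ X / s * Real.log X ^ 6 := by positivity
        have e : (5 * C₁ + C₂ + 1) * X * (1 / s) * Real.log X ^ 6 =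
          5 * C₁ * (X / s) * Real.log X ^ 6 + C₂ * (X / s) * Real.log X ^ 6 +
            X / s * Real.log X ^ 6 := by ring
        rw [e]; linarith

end Pool.Agent.Helper31.PB
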